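import Pool.Agent.Hp428.DS.Gap
import Pool.Agent.Hp428.SS.Rot

set_option autoImplicit false

/-!
# Existence of zeros of derivatives on the axis, local form
-/

namespace Pool.Agent.Hp428.TE

open Complex Filter Topology MeasureTheory Set
open Pool.Agent.H24R2.DZ (bad hc NN)
open Pool.Agent.H986R2.K4 (QQ lapQ)
open Pool.Agent.W571.SD (toQQ iter_shift)
open Pool.Agent.Hp428.DS

/-- **A zero on the axis.** -/
theorem exD : ∃ η : ℝ, ∃ n0 : ℕ, 0 < η ∧ 1 ≤ n0 ∧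
    ∀ (n : ℕ) (F : ℂ → ℂ), n0 ≤ n → NN n η F → ∀ y : ℝ, |y| ≤ 1 / 100 →
    ∃ h : ℝ, 0 ≤ h ∧ n * h ≤ 5 ∧ iteratedDeriv n F (((y + h : ℝ) : ℂ) * I) = 0 := by
  obtain ⟨e, he⟩ : ∃ e : ℝ, e = 1 / 160 := ⟨_, rfl⟩
  have he0 : 0 < e := by rw [he]; norm_num
  obtain ⟨κ1, η, n0, hκ1, hκ12, hη, hn0, H⟩ := rte lapQ (1 / 2) 18 e (by norm_num) (by norm_num)
    (by norm_num) he0
  refine ⟨min η (1 / 200), max (max n0 (⌈8 / κ1⌉₊ + 1)) (⌈1 / e⌉₊ + 1), lt_min hη (by norm_num),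
    hn0.trans ((le_max_left _ _).trans (le_max_left _ _)), ?_⟩
  intro n F hn hN y hy
  have hnn0 : n0 ≤ n := ((le_max_left _ _).trans (le_max_left _ _)).trans hn
  have hn1 : 1 ≤ n := hn0.trans hnn0
  have ha : (0 : ℝ) < n := by exact_mod_cast hn1
  have hn8 : 8 / κ1 ≤ n := by
    have h1 : ⌈8 / κ1⌉₊ + 1 ≤ n := ((le_max_right _ _).trans (le_max_left _ _)).trans hn
    have h2 : ((⌈8 / κ1⌉₊ + 1 : ℕ) : ℝ) ≤ n := by exact_mod_cast h1
    push_cast at h2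
    have := Nat.le_ceil (8 / κ1)
    linarith
  have hne : 1 / e ≤ n := by
    have h1 : ⌈1 / e⌉₊ + 1 ≤ n := (le_max_right _ _).trans hn
    have h2 : ((⌈1 / e⌉₊ + 1 : ℕ) : ℝ) ≤ n := by exact_mod_cast h1
    push_cast at h2
    have := Nat.le_ceil (1 / e)
    linarith
  have hη0 : 0 ≤ min η (1 / 200) := (lt_min hη (by norm_num)).le
  have hQ := toQQ (η' := η) hη0 (min_le_right _ _) (min_le_left _ _) hN y hy
  obtain ⟨G, hG⟩ : ∃ G : ℂ → ℂ, G = fun z => F (z + (y : ℂ) * I) := ⟨_, rfl⟩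
  rw [← hG] at hQ
  have hGit : ∀ z : ℂ, iteratedDeriv n G z = iteratedDeriv n F (z + (y : ℂ) * I) := by
    intro z
    rw [hG]
    exact iter_shift n _ z
  -- the right halves on the axis
  obtain ⟨A, hA⟩ : ∃ A : ℝ → ℂ, A = fun h : ℝ => hc G (n + 1) ((h : ℂ) * I) := ⟨_, rfl⟩
  obtain ⟨B, hB⟩ : ∃ B : ℝ → ℂ, B = fun h : ℝ => ((((n : ℝ) + 1) / n : ℝ) : ℂ) * hc G (n + 2) ((h : ℂ) * I) := ⟨_, rfl⟩
  have hsm : ∀ h : ℝ, 0 ≤ h → n * h ≤ 5 → ‖(h : ℂ) * I‖ ≤ κ1 := by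
    intro h h0 h1
    rw [norm_mul, Complex.norm_I, mul_one, Complex.norm_real, Real.norm_eq_abs, abs_of_nonneg h0]
    have h2 : h ≤ 5 / n := by
      rw [le_div_iff₀ ha]
      linarith
    have h3 : 5 / (n : ℝ) ≤ κ1 := by
      rw [div_le_iff₀ hκ1] at hn8
      rw [div_le_iff₀ ha]
      linarith
    linarith
  have hsm1 : ∀ h : ℝ, 0 ≤ h → n * h ≤ 5 → ‖(h : ℂ) * I‖ < 1 := by
    intro h h0 h1
    have := hsm h h0 h1
    linarith
  have hratio : ∀ h : ℝ, 0 ≤ h → n * h ≤ 5 → A h ≠ 0 ∧ ‖B h / A h - 1‖ ≤ 4 * e := by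
    intro h h0 h1
    obtain ⟨k1, k2⟩ := H n G hnn0 hQ _ (hsm h h0 h1)
    rw [hA, hB]
    refine ⟨k1, ?_⟩
    simp only
    obtain ⟨q, hq⟩ : ∃ q : ℂ, q = hc G (n + 2) ((h : ℂ) * I) / hc G (n + 1) ((h : ℂ) * I) := ⟨_, rfl⟩
    rw [← hq] at k2
    have e1 : ((((n : ℝ) + 1) / n : ℝ) : ℂ) * hc G (n + 2) ((h : ℂ) * I) / hc G (n + 1) ((h : ℂ) * I) - 1 =
        (q - 1) + ((1 / n : ℝ) : ℂ) * q := by
      rw [mul_div_assoc, ← hq]
      have hn0' : (n : ℂ) ≠ 0 := by exact_mod_cast ha.ne'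
      push_cast
      field_simp
      ring
    have h4 : ‖q‖ ≤ 1 + e := by
      have h5 := norm_add_le (q - 1) 1
      rw [sub_add_cancel, norm_one] at h5
      linarith
    have h6 : 1 / (n : ℝ) ≤ e := by
      rw [div_le_iff₀ he0] at hne
      rw [div_le_iff₀ ha]
      linarith
    have h7 : 0 ≤ 1 / (n : ℝ) := by positivity
    push_cast at e1 ⊢
    rw [e1]
    refine (norm_add_le _ _).trans ?_
    have h8 : ‖(1 / (n : ℂ)) * q‖ ≤ e * (1 + e) := by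
      rw [norm_mul]
      have : ‖(1 / (n : ℂ))‖ = 1 / (n : ℝ) := by
        rw [norm_div, norm_one]
        simp
      rw [this]
      gcongr
    have h9 : e * (1 + e) ≤ 2 * e := by nlinarith
    linarith
  have hder : ∀ h : ℝ, 0 ≤ h → n * h ≤ 5 → HasDerivAt A (I * (n : ℝ) * B h) h := by
    intro h h0 h1
    have d1 := (Pool.Agent.H24R2.DZ.half G n ((h : ℂ) * I) hQ.diff hQ.symm (hsm1 h h0 h1)).2
    have d2 : HasDerivAt (fun h : ℝ => (h : ℂ) * I) I h := by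
      have h := (Complex.ofRealCLM.hasDerivAt (x := h)).mul_const I
      simpa using h
    have d3 : HasDerivAt (fun h : ℝ => hc G (n + 1) ((h : ℂ) * I))
        ((n + 1) * hc G (n + 2) ((h : ℂ) * I) * I) h :=
      HasDerivAt.comp (h₂ := fun z => hc G (n + 1) z) (h := fun h : ℝ => (h : ℂ) * I) h d1 d2
    rw [hA]
    refine d3.congr_deriv ?_
    rw [hB]
    have hn0' : (n : ℂ) ≠ 0 := by exact_mod_cast ha.ne'
    push_cast
    field_simp
  have hfac : (n.factorial : ℂ) ≠ 0 := by exact_mod_cast n.factorial_ne_zero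
  have hval : ∀ h : ℝ, 0 ≤ h → n * h ≤ 5 →
      iteratedDeriv n F (((y + h : ℝ) : ℂ) * I) / n.factorial = A h + (-1) ^ n * (starRingEnd ℂ) (A h) := by
    intro h h0 h1
    have d1 := (Pool.Agent.H24R2.DZ.half G n ((h : ℂ) * I) hQ.diff hQ.symm (hsm1 h h0 h1)).1
    rw [hGit] at d1
    have e1 : -((starRingEnd ℂ) ((h : ℂ) * I)) = (h : ℂ) * I := by
      rw [map_mul, Complex.conj_I, Complex.conj_ofReal]
      ring
    rw [e1] at d1
    have e2 : (h : ℂ) * I + (y : ℂ) * I = ((y + h : ℝ) : ℂ) * I := by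
      push_cast
      ring
    rw [e2] at d1
    rw [hA]
    exact d1
  obtain ⟨s, hs, hsn⟩ : ∃ s : ℝ, (s = 1 ∨ s = -1) ∧ (s : ℂ) = (-1) ^ n := by
    rcases Nat.even_or_odd n with h | h
    · exact ⟨1, Or.inl rfl, by rw [h.neg_one_pow]; simp⟩
    · exact ⟨-1, Or.inr rfl, by rw [h.neg_one_pow]; simp⟩
  obtain ⟨h, h0, h1, h2⟩ := Pool.Agent.Hp428.SS.ex_zero (a := n) (e := 4 * e) (s := s) ha (by positivity)
    (by rw [he]; norm_num) hs A B (fun h h0 h1 => (hratio h h0 h1).1) hder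
    (fun h h0 h1 => (hratio h h0 h1).2)
  refine ⟨h, h0, h1, ?_⟩
  have h3 := hval h h0 h1
  rw [← hsn, h2] at h3
  exact (div_eq_zero_iff.1 h3).resolve_right hfac

end Pool.Agent.Hp428.TE
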