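import Pool.Agent.Hp428.TE.Ex
import Pool.Agent.Hp428.TD.Main
import Pool.Agent.Hp428.TS.Main

set_option autoImplicit false

/-!
# Spacing of the zeros of the derivatives: abstract form
-/

namespace Pool.Agent.Hp428.TE

open Complex Filter Topology Set MeasureTheory
open Pool.Agent.H24R2.DZ (NN)
open Pool.Agent.Y671.LD (bad iter_comp)
open Pool.Agent.Hp428.TD
open Pool.Agent.Hp428.TS (el_half el_close)

/-- **Abstract theorem**: all zeros of the derivatives are simple, on the line and equally spaced,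
and there are such zeros. -/
theorem der_abs {K : ℝ} (hK : 1 ≤ K) {ε : ℝ} (hε : 0 < ε) : ∃ K2 L0 : ℝ, 1 ≤ K2 ∧ 100 ≤ L0 ∧
    ∀ (L Q : ℝ) (R G : ℂ → ℂ), L0 ≤ L → GQ L K Q R G → ∀ n : ℕ,
      (∀ y : ℝ, K2 * el L y ≤ n → ∃ y' : ℝ, y ≤ y' ∧ y' ≤ y + 5 / Oq L y n ∧
        iteratedDeriv n G (I * y') = 0) ∧
      (∀ s : ℂ, K2 * el L s.im ≤ n → iteratedDeriv n G s = 0 →
        s.re = 0 ∧ iteratedDeriv (n + 1) G s ≠ 0 ∧ ∃ g : ℝ, 0 < g ∧
          |g * Oq L s.im n - Real.pi| ≤ ε ∧
          iteratedDeriv n G (s + g * I) = 0 ∧ iteratedDeriv (n + 1) G (s + g * I) ≠ 0 ∧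
          ∀ z : ℂ, iteratedDeriv n G z = 0 → s.im ≤ z.im → z.im ≤ s.im + g →
            z = s ∨ z = s + g * I) := by
  obtain ⟨e, he⟩ : ∃ e : ℝ, e = min ε (1 / 2) := ⟨_, rfl⟩
  have he0 : 0 < e := by
    rw [he]
    exact lt_min hε (by norm_num)
  have he1 : e ≤ 1 / 2 := by rw [he]; exact min_le_right _ _
  have heε : e ≤ ε := by rw [he]; exact min_le_left _ _
  obtain ⟨η1, n1, hη1, hn1, hgap⟩ := Pool.Agent.Hp428.DS.gapD e he0 he1
  obtain ⟨η2, n2, hη2, hn2, hex⟩ := exD
  obtain ⟨K2a, L0a, hK2a, hL0a, hnb⟩ := main_abs hK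
  obtain ⟨K2b, L0b, hK2b, hL0b, hN⟩ := st_all hK (η := min η1 η2) (lt_min hη1 hη2) (max n1 n2)
  refine ⟨2 * max K2a K2b, max L0a L0b, ?_, ?_, fun L Q R G hL H n => ?_⟩
  · have := le_max_left K2a K2b
    linarith
  · exact hL0a.trans (le_max_left _ _)
  have hLa : L0a ≤ L := (le_max_left _ _).trans hL
  have hLb : L0b ≤ L := (le_max_right _ _).trans hL
  have hL100 : 100 ≤ L := hL0a.trans hLa
  have hcond : ∀ y : ℝ, 2 * max K2a K2b * el L y ≤ n → K2b * el L y ≤ n ∧
      ∀ y' : ℝ, |y' - y| ≤ 1 / 25 → K2a * el L y' ≤ n := by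
    intro y hy
    have h0 := el_half (L := L) (by linarith) y
    have hm1 := le_max_left K2a K2b
    have hm2 := le_max_right K2a K2b
    constructor
    · refine le_trans ?_ hy
      gcongr
      linarith
    · intro y' hy'
      have h1 := el_close (L := L) (by linarith) hy'
      calc K2a * el L y' ≤ K2a * (2 * el L y) := by gcongr
        _ = 2 * K2a * el L y := by ring
        _ ≤ 2 * max K2a K2b * el L y := by gcongr
        _ ≤ _ := hy
  -- the local situation at the natural scale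
  have loc : ∀ y : ℝ, K2b * el L y ≤ n → ∃ r : ℝ, 0 < r ∧ r * Oq L y n = n ∧ 0 < (n : ℝ) ∧
      100 ≤ Oq L y n ∧ n1 ≤ n ∧ n2 ≤ n ∧
      NN n (min η1 η2) (fun z => G (I * y + r * z)) := by
    intro y hy
    obtain ⟨h1, h2, h3, h4⟩ := hN L Q R G hLb H n y hy
    have hO : 100 ≤ Oq L y n := hL100.trans h3
    have hO0 : 0 < Oq L y n := by linarith
    have e1 : (n : ℝ) / Oq L y n * Oq L y n = n := by field_simp
    have h5 := h4 (n / Oq L y n) e1.ge (by
      have : (n : ℝ) / Oq L y n ≤ n := div_le_self h2.le (by linarith)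
      linarith)
    rw [e1] at h5
    exact ⟨n / Oq L y n, by positivity, e1, h2, hO, (le_max_left _ _).trans h1,
      (le_max_right _ _).trans h1, h5⟩
  have hscale : ∀ (y r t : ℝ), 0 < r →
      (iteratedDeriv n (fun z => G (I * y + r * z)) ((t : ℂ) * I) = 0 ↔
        iteratedDeriv n G (I * ((y + r * t : ℝ) : ℂ)) = 0) := by
    intro y r t hr
    rw [iter_comp H.diff]
    have e1 : I * (y : ℂ) + r * ((t : ℂ) * I) = I * ((y + r * t : ℝ) : ℂ) := by push_cast; ring
    rw [e1]
    have hrc : (r : ℂ) ^ n ≠ 0 := pow_ne_zero _ (by exact_mod_cast hr.ne')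
    constructor
    · intro h
      exact (mul_eq_zero.1 h).resolve_left hrc
    · intro h
      rw [h, mul_zero]
  have hgood : ∀ z : ℂ, K2a * el L z.im ≤ n → iteratedDeriv n G z = 0 →
      z.re = 0 ∧ iteratedDeriv (n + 1) G z ≠ 0 := by
    intro z hz hz0
    have h1 := hnb L Q R G hLa H n z hz
    unfold bad at h1
    constructor
    · by_contra h2
      exact h1 ⟨hz0, Or.inl h2⟩
    · intro h2
      exact h1 ⟨hz0, Or.inr h2⟩
  constructor
  · intro y hy
    obtain ⟨r, hr, hrO, hn0, hO, hm1, hm2, hNN⟩ := loc y (hcond y hy).1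
    have hO0 : 0 < Oq L y n := by linarith
    obtain ⟨h, h1, h2, h3⟩ := hex n _ hm2
      (Pool.Agent.W29.RT.Loc.NN.mono hn0.le hNN (min_le_right _ _)) 0 (by rw [abs_zero]; norm_num)
    rw [hscale y r (0 + h) hr, zero_add] at h3
    refine ⟨y + r * h, by nlinarith, ?_, h3⟩
    have h4 : r * h ≤ 5 / Oq L y n := by
      rw [le_div_iff₀ hO0]
      have e1 : r * h * Oq L y n = r * Oq L y n * h := by ring
      rw [e1, hrO]
      exact h2
    linarith
  · intro s hs hz
    obtain ⟨r, hr, hrO, hn0, hO, hm1, hm2, hNN⟩ := loc s.im (hcond s.im hs).1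
    have hO0 : 0 < Oq L s.im n := by linarith
    obtain ⟨c1, c2⟩ := hgood s ((hcond s.im hs).2 _ (by rw [sub_self, abs_zero]; norm_num)) hz
    have hsi : s = I * (s.im : ℂ) := by
      apply Complex.ext
      · simp [c1]
      · simp
    obtain ⟨h, h1, h2, h3, h4⟩ := hgap n _ hm1
      (Pool.Agent.W29.RT.Loc.NN.mono hn0.le hNN (min_le_left _ _)) 0 (by rw [abs_zero]; norm_num) (by
        rw [hscale s.im r 0 hr, mul_zero, add_zero, ← hsi]
        exact hz)
    rw [hscale s.im r (0 + h) hr, zero_add] at h3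
    have hpi4 := Real.pi_lt_four
    have hpi32 : Real.pi < 3.15 := Real.pi_lt_d2
    have hrh : 0 < r * h := by positivity
    have e0 : r * h * Oq L s.im n = n * h := by
      have e1 : r * h * Oq L s.im n = r * Oq L s.im n * h := by ring
      rw [e1, hrO]
    have hg25 : r * h ≤ 1 / 25 := by
      have h5 : r * h * 100 ≤ r * h * Oq L s.im n := by gcongr
      rw [e0] at h5
      have := (abs_le.1 h2).2
      linarith
    have e1 : s + ((r * h : ℝ) : ℂ) * I = I * ((s.im + r * h : ℝ) : ℂ) := by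
      apply Complex.ext
      · simp [c1]
      · simp
    have him : (s + ((r * h : ℝ) : ℂ) * I).im = s.im + r * h := by simp
    have hz2 : iteratedDeriv n G (s + ((r * h : ℝ) : ℂ) * I) = 0 := by
      rw [e1]
      exact h3
    refine ⟨c1, c2, r * h, hrh, ?_, hz2, ?_, ?_⟩
    · rw [e0]
      exact h2.trans heε
    · refine (hgood _ ((hcond s.im hs).2 _ ?_) hz2).2
      rw [him, add_sub_cancel_left, abs_of_pos hrh]
      exact hg25
    · intro z hz0 hz1 hz3
      obtain ⟨d1, -⟩ := hgood z ((hcond s.im hs).2 _ (by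
        rw [abs_of_nonneg (by linarith)]
        linarith)) hz0
      have hzi : z = I * (z.im : ℂ) := by
        apply Complex.ext
        · simp [d1]
        · simp
      rcases eq_or_lt_of_le hz1 with h6 | h6
      · left
        rw [hzi, ← h6, ← hsi]
      · rcases eq_or_lt_of_le hz3 with h7 | h7
        · right
          rw [hzi, h7, e1]
        · exfalso
          refine h4 ((z.im - s.im) / r) (div_pos (by linarith) hr) (by
            rw [div_lt_iff₀ hr]
            linarith) ?_
          rw [hscale s.im r _ hr, zero_add]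
          have e3 : s.im + r * ((z.im - s.im) / r) = z.im := by
            field_simp
            ring
          rw [e3, ← hzi]
          exact hz0

end Pool.Agent.Hp428.TE
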