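import Pool.Agent.Hp428.TD.Fin
import Pool.Agent.Hp428.TE.Law
import Pool.Agent.Hp428.TE.Main

set_option autoImplicit false

/-!
# The law for the zeros of the derivatives
-/

namespace Pool.Agent.Hp428.TE

open Complex MeasureTheory
open Pool.Agent.Y19.QT (IsLFun sqf mem_sqf HasTwists lindelofLaw_of TwistsModular isLFun_uniq)
open Pool.Agent.Hp428.TD

theorem regular_of {n : ℕ} {ω : ℂ} {M : ℂ → ℂ} {l ε : ℝ} {s : ℂ} (hM : Differentiable ℂ M)
    (h : (s - 1).re = 0 ∧ iteratedDeriv (n + 1) (fun z => ω * M (1 + z)) (s - 1) ≠ 0 ∧ ∃ g : ℝ, 0 < g ∧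
      |g * l - Real.pi| ≤ ε ∧ iteratedDeriv n (fun z => ω * M (1 + z)) (s - 1 + g * I) = 0 ∧
      iteratedDeriv (n + 1) (fun z => ω * M (1 + z)) (s - 1 + g * I) ≠ 0 ∧
      ∀ z : ℂ, iteratedDeriv n (fun z => ω * M (1 + z)) z = 0 → (s - 1).im ≤ z.im →
        z.im ≤ (s - 1).im + g → z = s - 1 ∨ z = s - 1 + g * I) : Regular n M l ε s := by
  obtain ⟨h1, h2, g, h3, h4, h5, h6, h7⟩ := h
  have e1 : (1 : ℂ) + (s - 1) = s := by ring
  have e2 : (1 : ℂ) + (s - 1 + g * I) = s + g * I := by ring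
  rw [iter_shift (n + 1) ω M hM, e1] at h2
  have hω : ω ≠ 0 := left_ne_zero_of_mul h2
  rw [iter_shift n ω M hM, e2] at h5
  rw [iter_shift (n + 1) ω M hM, e2] at h6
  refine ⟨?_, right_ne_zero_of_mul h2, g, h3, h4, (mul_eq_zero.1 h5).resolve_left hω,
    right_ne_zero_of_mul h6, fun z hz hz1 hz2 => ?_⟩
  · have e : (s - 1).re = s.re - 1 := by simp
    rw [e] at h1
    linarith
  · have him : (s - 1).im = s.im := by simp
    have him2 : (z - 1).im = z.im := by simp
    have h8 := h7 (z - 1) (by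
      rw [iter_shift n ω M hM, show (1 : ℂ) + (z - 1) = z by ring, hz, mul_zero])
      (by rw [him, him2]; exact hz1) (by rw [him, him2]; exact hz2)
    rcases h8 with h8 | h8
    · left
      linear_combination h8
    · right
      linear_combination h8

theorem zerosLaw_of {a b : ℤ} (hab : 4 * a ^ 3 + 27 * b ^ 2 ≠ 0) (h : HasTwists a b)
    (hL : ∀ d : ℤ, Squarefree d → ∃ F : ℂ → ℂ, IsLFun (a * d ^ 2) (b * d ^ 3) F) :
    DerivativeZerosLaw a b := by
  have hlin := lindelofLaw_of hab h hL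
  obtain ⟨Q, lam, ⟨T⟩, hQ, hlam⟩ := h
  refine ⟨exists_completed a b hab T hQ hlam hL, fun c M hM K ε hε => ?_⟩
  obtain ⟨C, K3, hC, hK3, hgood⟩ := good_twists a b hab T hQ hlam hlin K
  have hl2 : 0 < Real.log 2 := Real.log_pos (by norm_num)
  have hlc : 0 ≤ Real.log (max 1 c) := Real.log_nonneg (le_max_left _ _)
  have hlc2 : 0 ≤ Real.log (max 1 c) / Real.log 2 := div_nonneg hlc hl2.le
  have hK0 : (0 : ℝ) ≤ K := Nat.cast_nonneg _
  obtain ⟨K2, L0, hK2, hL0, hmain⟩ := der_abs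
    (K := K3 + Real.log (max 1 c) / Real.log 2 + K + Real.log (max 1 c) + 3) (by linarith) hε
  have hex : ∀ d : ℤ, ∃ F : ℂ → ℂ, Squarefree d → IsLFun (a * d ^ 2) (b * d ^ 3) F := by
    intro d
    by_cases hd : Squarefree d
    · obtain ⟨F, hF⟩ := hL d hd
      exact ⟨F, fun _ => hF⟩
    · exact ⟨0, fun h => absurd h hd⟩
  choose F0 hF0 using hex
  refine ⟨C + 3 * L0 ^ K, K2, fun X S hX hS hbad => ?_⟩
  have hX0 : (0 : ℝ) < X := by exact_mod_cast (by omega : 0 < X)
  have hl := Pool.Agent.Y474.QTZ6.one_le_log hX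
  have hLK : 0 < Real.log X ^ K := by positivity
  rcases le_total (Real.log X) L0 with hXL | hXL
  · refine (small_X (K := K) hX hXL S hS).trans ?_
    gcongr
    linarith
  · have h5 : 5 ≤ Real.log X := by linarith
    have key : (S.card : ℝ) ≤ C * X / Real.log X ^ K := by
      refine hgood F0 hF0 X S hX h5 hS ?_
      rintro d hd ⟨hrn, hdl⟩
      obtain ⟨n, y, hn, hor⟩ := hbad d hd
      obtain ⟨hdX, hsq⟩ := mem_sqf.1 (hS hd)
      have hd0 : d ≠ 0 := hsq.ne_zero
      have hdL : Real.log |(d : ℝ)| ≤ Real.log X := by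
        apply Real.log_le_log (abs_pos.2 (by exact_mod_cast hd0))
        exact_mod_cast hdX
      obtain ⟨Q', R, G, ω, hω, hGQ, hG⟩ := gq_of (hM d hsq) (hF0 d hsq) (L := Real.log X)
        (K := K3) (κ := K) h5 hK3 hK0 hd0 hdL hdl hrn
      have hG' : G = fun z => ω * M d (1 + z) := hG
      rw [hG'] at hGQ
      have hMd : Differentiable ℂ (M d) := (hM d hsq).entire
      obtain ⟨m1, m2⟩ := hmain (Real.log X) Q' R _ hXL hGQ n
      rcases hor with ⟨s, hsy, h1, h2⟩ | h1
      · have him : (s - 1).im = s.im := by simp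
        apply h2
        refine regular_of (ω := ω) hMd ?_
        have h3 := m2 (s - 1) (by rw [him, hsy]; exact hn) (by
          rw [iter_shift n ω (M d) hMd, show (1 : ℂ) + (s - 1) = s by ring, h1, mul_zero])
        rw [him, hsy] at h3
        rw [him, hsy]
        exact h3
      · obtain ⟨y', h2, h3, h4⟩ := m1 y hn
        refine h1 y' h2 h3 ?_
        rw [iter_shift n ω (M d) hMd] at h4
        have h5 := (mul_eq_zero.1 h4).resolve_left hω
        rwa [mul_comm I] at h5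
    refine key.trans ?_
    gcongr
    have : 0 ≤ 3 * L0 ^ K := by positivity
    linarith

end Pool.Agent.Hp428.TE
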