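import Pool.Agent.Hp428.TH.Law

set_option autoImplicit false

/-!
# Zeros of the heat flow of the completed L-functions of quadratic twists: definitions
-/

namespace Pool.Agent.Hp428.TE

open Complex
open Pool.Agent.Y19.QT (IsLFun sqf)
open Pool.Agent.Hp428.TD (IsCompleted)

/-- The zeros of the heat flow of the completed L-functions of almost all quadratic twists
`E_d : y² = x³ + a d² x + b d³` of `E : y² = x³ + a x + b`, `d` squarefree (positive or negative): the
completed L-functions exist, with a constant `c` depending on `E` only; and for every `c` and every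
choice of completed L-functions `M_d` with this constant, for all `K` and `ε > 0` there are `C`, `K'`
such that for all `X ≥ 3` and for all squarefree `d`, `|d| ≤ X`, except at most `C X / (log X)^K` of
them, the following holds for all times `0 < t ≤ 1/8` and all real numbers `y` with
`t ℓ² ≥ K' (log log X + log (2 + |y|))`, where `ℓ = log X + log (2 + |y|)`: every zero `s` of
`exp (t D²) M_d` with `Im s = y` is simple and on the line `Re s = 1`, and the next zero above `s` has the
same properties and the distance `(π + O(ε)) / ℓ` from `s`; and there is a zero `1 + i y'` with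
`y ≤ y' ≤ y + 4 / ℓ`. -/
def HeatZerosLaw (a b : ℤ) : Prop :=
  (∃ c : ℝ, ∀ d : ℤ, Squarefree d → ∃ M : ℂ → ℂ, IsCompleted a b d c M) ∧
  ∀ (c : ℝ) (M : ℤ → ℂ → ℂ), (∀ d : ℤ, Squarefree d → IsCompleted a b d c (M d)) →
    ∀ (K : ℕ) (ε : ℝ), 0 < ε → ∃ C K' : ℝ, ∀ (X : ℕ) (S : Finset ℤ), 3 ≤ X → S ⊆ sqf X →
      (∀ d ∈ S, ∃ t y : ℝ, 0 < t ∧ t ≤ 1 / 8 ∧
        K' * (Real.log (Real.log X) + Real.log (2 + |y|)) ≤
          t * (Real.log X + Real.log (2 + |y|)) ^ 2 ∧
        ((∃ s : ℂ, s.im = y ∧ Hp428.TH.heatFlow t (M d) s = 0 ∧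
          ¬ Hp428.TH.Regular (Hp428.TH.heatFlow t (M d)) (Real.log X + Real.log (2 + |y|)) ε s) ∨
        ∀ y' : ℝ, y ≤ y' → y' ≤ y + 4 / (Real.log X + Real.log (2 + |y|)) →
          Hp428.TH.heatFlow t (M d) (1 + y' * I) ≠ 0)) →
      (S.card : ℝ) ≤ C * X / Real.log X ^ K

end Pool.Agent.Hp428.TE
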