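import Pool.Agent.Hp428.TE.Hx
import Pool.Agent.Hp428.TH.Main

set_option autoImplicit false

/-!
# Existence of zeros of the heat flow: abstract form
-/

namespace Pool.Agent.Hp428.TE

open Complex Filter Topology Set MeasureTheory
open Pool.Agent.W186.SD (UU NG Grow)
open Pool.Agent.W169.HF (heat Slow)
open Pool.Agent.Hp428.TD
open Pool.Agent.Hp428.TH

/-- there are zeros of the heat flow on the line -/
theorem heat_ex {K : ℝ} (hK : 1 ≤ K) : ∃ K2 L0 : ℝ, 1 ≤ K2 ∧ 100 ≤ L0 ∧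
    ∀ (L Q : ℝ) (R G : ℂ → ℂ), L0 ≤ L → GQ L K Q R G → ∀ (τ y : ℝ), 0 < τ → τ ≤ 1 / 8 →
      K2 * el L y ≤ τ * ell L y ^ 2 → ∃ y' : ℝ, y ≤ y' ∧ y' ≤ y + 4 / ell L y ∧
        heat τ G (I * y') = 0 := by
  obtain ⟨θ, aG, hθ, haG, HG⟩ := exU Pool.Agent.Y671.LD.ud
  obtain ⟨K2, L0, hK2, hL0, hNG⟩ := ng_all hK hθ (a0 := aG) (by linarith)
  refine ⟨K2, L0, hK2, hL0, fun L Q R G hL H τ y hτ hτ8 hn => ?_⟩
  have hL100 : 100 ≤ L := hL0.trans hL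
  obtain ⟨hn0, hn1, hOL, hN⟩ := hNG L Q R G hL H _ y hn
  obtain ⟨Om, hOm, hO100, hOl, hOu, hOn, hOr⟩ := scale (y := y) hL100 hτ hτ8
  obtain ⟨n, hnd⟩ : ∃ n, n = τ * ell L y ^ 2 := ⟨_, rfl⟩
  rw [← hnd] at hn0 hn1 hOL hN hOm hOn hOr
  rw [← hOm] at hN hOL
  obtain ⟨r, hr⟩ : ∃ r : ℝ, r = 2 * τ * Om := ⟨_, rfl⟩
  rw [← hr] at hOn hOr
  have hrp : 0 < r := by rw [hr]; positivity
  have hg : r ^ 2 / (4 * τ) = r * Om / 2 := by
    rw [hr]
    field_simp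
    ring
  have h3 : n ≤ r * Om := by linarith
  have hN1 := hN r (r * Om / 2) h3 (by linarith) le_rfl
  obtain ⟨h, h0, h1, h2⟩ := HG (r * Om) _ (hn0.trans h3) hN1
  have hl100 := hL100.trans (ell_ge (L := L) y)
  refine ⟨y + r * h, by nlinarith, ?_, ?_⟩
  · have h4 : r * h ≤ 4 / ell L y := by
      rw [le_div_iff₀ (by linarith)]
      calc r * h * ell L y ≤ r * h * Om := by gcongr
        _ = r * Om * h := by ring
        _ ≤ 4 := h1
    linarith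
  · have h5 := rel_G G τ r y ((h : ℝ) * I) hτ hrp
    have h6 : heat τ G (I * y + r * ((h : ℝ) * I)) =
        ((r / (2 * Real.sqrt (Real.pi * τ)) : ℝ) : ℂ) *
          UU (r ^ 2 / (4 * τ)) (fun z => G (I * y + r * z)) ((h : ℝ) * I) := h5
    rw [hg, h2, mul_zero] at h6
    have e1 : I * (y : ℂ) + r * (((h : ℝ) : ℂ) * I) = I * ((y + r * h : ℝ) : ℂ) := by push_cast; ring
    rw [e1] at h6
    exact h6

end Pool.Agent.Hp428.TE
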