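import Pool.Agent.Hp428.TH.Fin
import Pool.Agent.Hp428.TE.HLaw
import Pool.Agent.Hp428.TE.HMain
import Pool.Agent.Hp428.TS.Main

set_option autoImplicit false

/-!
# The law for the zeros of the heat flow
-/

namespace Pool.Agent.Hp428.TE

open Complex MeasureTheory
open Pool.Agent.Y19.QT (IsLFun sqf mem_sqf HasTwists lindelofLaw_of TwistsModular isLFun_uniq)
open Pool.Agent.W169.HF (heat)
open Pool.Agent.Hp428.TD
open Pool.Agent.Hp428.TH (heatFlow heat_shift regular_of heat_abs)
open Pool.Agent.Hp428.TS (el_half)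

theorem heatZerosLaw_of {a b : ℤ} (hab : 4 * a ^ 3 + 27 * b ^ 2 ≠ 0) (h : HasTwists a b)
    (hL : ∀ d : ℤ, Squarefree d → ∃ F : ℂ → ℂ, IsLFun (a * d ^ 2) (b * d ^ 3) F) :
    HeatZerosLaw a b := by
  have hlin := lindelofLaw_of hab h hL
  obtain ⟨Q, lam, ⟨T⟩, hQ, hlam⟩ := h
  refine ⟨exists_completed a b hab T hQ hlam hL, fun c M hM K ε hε => ?_⟩
  obtain ⟨C, K3, hC, hK3, hgood⟩ := good_twists a b hab T hQ hlam hlin K
  have hl2 : 0 < Real.log 2 := Real.log_pos (by norm_num)
  have hlc : 0 ≤ Real.log (max 1 c) := Real.log_nonneg (le_max_left _ _)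
  have hlc2 : 0 ≤ Real.log (max 1 c) / Real.log 2 := div_nonneg hlc hl2.le
  have hK0 : (0 : ℝ) ≤ K := Nat.cast_nonneg _
  obtain ⟨K2, L0, hK2, hL0, hmain⟩ := heat_abs
    (K := K3 + Real.log (max 1 c) / Real.log 2 + K + Real.log (max 1 c) + 3) (by linarith) hε
  obtain ⟨K2', L0', hK2', hL0', hmain'⟩ := heat_ex
    (K := K3 + Real.log (max 1 c) / Real.log 2 + K + Real.log (max 1 c) + 3) (by linarith)
  have hex : ∀ d : ℤ, ∃ F : ℂ → ℂ, Squarefree d → IsLFun (a * d ^ 2) (b * d ^ 3) F := by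
    intro d
    by_cases hd : Squarefree d
    · obtain ⟨F, hF⟩ := hL d hd
      exact ⟨F, fun _ => hF⟩
    · exact ⟨0, fun h => absurd h hd⟩
  choose F0 hF0 using hex
  obtain ⟨L1, hL1⟩ : ∃ L1 : ℝ, L1 = max L0 L0' := ⟨_, rfl⟩
  have hL1a : L0 ≤ L1 := by rw [hL1]; exact le_max_left _ _
  have hL1b : L0' ≤ L1 := by rw [hL1]; exact le_max_right _ _
  refine ⟨C + 3 * L1 ^ K, max K2 K2', fun X S hX hS hbad => ?_⟩
  have hX0 : (0 : ℝ) < X := by exact_mod_cast (by omega : 0 < X)
  have hl := Pool.Agent.Y474.QTZ6.one_le_log hX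
  have hLK : 0 < Real.log X ^ K := by positivity
  rcases le_total (Real.log X) L1 with hXL | hXL
  · refine (small_X (K := K) hX hXL S hS).trans ?_
    gcongr
    linarith
  · have h5 : 5 ≤ Real.log X := by linarith
    have key : (S.card : ℝ) ≤ C * X / Real.log X ^ K := by
      refine hgood F0 hF0 X S hX h5 hS ?_
      rintro d hd ⟨hrn, hdl⟩
      obtain ⟨t, y, ht, ht8, hn, hor⟩ := hbad d hd
      obtain ⟨hdX, hsq⟩ := mem_sqf.1 (hS hd)
      have hd0 : d ≠ 0 := hsq.ne_zero
      have hdL : Real.log |(d : ℝ)| ≤ Real.log X := by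
        apply Real.log_le_log (abs_pos.2 (by exact_mod_cast hd0))
        exact_mod_cast hdX
      obtain ⟨Q', R, G, ω, hω, hGQ, hG⟩ := gq_of (hM d hsq) (hF0 d hsq) (L := Real.log X)
        (K := K3) (κ := K) h5 hK3 hK0 hd0 hdL hdl hrn
      have hG' : G = fun z => ω * M d (1 + z) := hG
      rw [hG'] at hGQ
      have hel : 0 ≤ el (Real.log X) y := by
        have := el_half hl y
        linarith
      have hn1 : K2 * el (Real.log X) y ≤ t * (Real.log X + Real.log (2 + |y|)) ^ 2 :=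
        le_trans (mul_le_mul_of_nonneg_right (le_max_left _ _) hel) hn
      have hn2 : K2' * el (Real.log X) y ≤ t * (Real.log X + Real.log (2 + |y|)) ^ 2 :=
        le_trans (mul_le_mul_of_nonneg_right (le_max_right _ _) hel) hn
      rcases hor with ⟨s, hsy, h1, h2⟩ | h1
      · have him : (s - 1).im = s.im := by simp
        apply h2
        refine regular_of hω ?_
        have h3 := hmain (Real.log X) Q' R _ (hL1a.trans hXL) hGQ t (s - 1) ht ht8 ?_ ?_
        · rw [him, hsy] at h3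
          rw [him, hsy]
          exact h3
        · rw [him, hsy]
          exact hn1
        · rw [heat_shift]
          show ω * heatFlow t (M d) (1 + (s - 1)) = 0
          rw [show (1 : ℂ) + (s - 1) = s by ring, h1, mul_zero]
      · obtain ⟨y', h2, h3, h4⟩ := hmain' (Real.log X) Q' R _ (hL1b.trans hXL) hGQ t y ht ht8 hn2
        refine h1 y' h2 h3 ?_
        rw [heat_shift] at h4
        have h4' : ω * heatFlow t (M d) (1 + I * y') = 0 := h4
        have h5 := (mul_eq_zero.1 h4').resolve_left hω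
        rwa [mul_comm I] at h5
    refine key.trans ?_
    gcongr
    have h0 : 0 ≤ L1 := by linarith
    have : 0 ≤ 3 * L1 ^ K := by positivity
    linarith

end Pool.Agent.Hp428.TE
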