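import Pool.Agent.R838.CR.Loc4
import Pool.Agent.Hp428.TH.Main

set_option autoImplicit false

/-!
# Existence of zeros of the heat flow on the axis
-/

namespace Pool.Agent.Hp428.TE

open Complex Filter Topology MeasureTheory Set
open Pool.Agent.W186.SD
open Pool.Agent.R838.CR

/-- a phase at which the rotated number has a large real part -/
theorem phase (J : ℂ) : ∃ θ : ℝ, 0 ≤ θ ∧ θ ≤ 1 / 2 ∧
    ‖J‖ / 5 ≤ |J.re * Real.cos θ - J.im * Real.sin θ| := by
  have hn : ‖J‖ ^ 2 = J.re ^ 2 + J.im ^ 2 := by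
    rw [Complex.sq_norm, Complex.normSq_apply]
    ring
  have h0 := norm_nonneg J
  rcases le_or_gt (‖J‖ / 5) |J.re| with h1 | h1
  · refine ⟨0, le_rfl, by norm_num, ?_⟩
    rw [Real.cos_zero, Real.sin_zero]
    simpa using h1
  · refine ⟨1 / 2, by norm_num, le_rfl, ?_⟩
    have hs := Real.sin_gt_sub_cube (x := 1 / 2) (by norm_num)
    have hs1 : (0.46 : ℝ) ≤ Real.sin (1 / 2) := by
      refine le_trans ?_ hs.le
      norm_num
    have h2 : 0.97 * ‖J‖ ≤ |J.im| := by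
      by_contra hcon
      push Not at hcon
      have h3 : |J.im| ^ 2 ≤ (0.97 * ‖J‖) ^ 2 := by gcongr
      have h4 : |J.re| ^ 2 ≤ (‖J‖ / 5) ^ 2 := by gcongr
      rw [sq_abs] at h3 h4
      have h5 : 0 < ‖J‖ := by
        have := abs_nonneg J.re
        linarith
      nlinarith
    have h3 : |J.im * Real.sin (1 / 2)| - |J.re * Real.cos (1 / 2)| ≤
        |J.re * Real.cos (1 / 2) - J.im * Real.sin (1 / 2)| := by
      have := abs_sub_abs_le_abs_sub (J.im * Real.sin (1 / 2)) (J.re * Real.cos (1 / 2))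
      rwa [abs_sub_comm (J.im * _)] at this
    have h4 : 0.97 * ‖J‖ * 0.46 ≤ |J.im * Real.sin (1 / 2)| := by
      rw [abs_mul, abs_of_nonneg (by linarith : (0 : ℝ) ≤ Real.sin (1 / 2))]
      gcongr
    have h5 : |J.re * Real.cos (1 / 2)| ≤ ‖J‖ / 5 := by
      rw [abs_mul]
      calc |J.re| * |Real.cos (1 / 2)| ≤ ‖J‖ / 5 * 1 := by
            gcongr
            exact Real.abs_cos_le_one _
        _ = _ := by ring
    linarith

/-- **A zero of the local heat flow on the axis.** -/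
theorem exU (hUD : S_UD) : ∃ θ a0 : ℝ, 0 < θ ∧ 1 ≤ a0 ∧ ∀ (a : ℝ) (F : ℂ → ℂ), a0 ≤ a →
    NG (1 / 2) a (a / 2) θ F → ∃ h : ℝ, 0 ≤ h ∧ a * h ≤ 4 ∧ UU (a / 2) F ((h : ℝ) * I) = 0 := by
  obtain ⟨θ, a0, hθ0, hθ1, ha0, H⟩ := locest hUD (ε := 1 / 8) (by norm_num) (by norm_num)
  refine ⟨θ, a0, hθ0, by linarith, fun a F haa hN => ?_⟩
  have ha9 : 10 ^ 9 ≤ a := ha0.trans haa
  have ha : 0 < a := by linarith
  have ha1 : 1 ≤ a := by linarith
  obtain ⟨c1, -, c3⟩ := H a F haa hN 0 (by rw [abs_zero]; norm_num)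
  obtain ⟨J, hJ⟩ : ∃ J : ℂ, J = JJ a F 0 := ⟨_, rfl⟩
  rw [← hJ] at c1 c3
  have hpi3 := Real.pi_gt_three
  have hpi32 : Real.pi < 3.15 := Real.pi_lt_d2
  have hsm : ∀ t : ℝ, 0 ≤ t → t ≤ 4 → |t / a| < 1 := by
    intro t h1 h2
    rw [abs_of_nonneg (by positivity), div_lt_one ha]
    linarith
  have hg : ∀ t : ℝ, 0 ≤ t → t ≤ 4 →
      |(JJ a F (t / a)).re - (J.re * Real.cos t - J.im * Real.sin t)| ≤ ‖J‖ / 8 := by
    intro t h1 h2
    have e1 : a * (t / a) = t := by field_simp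
    have h3 := c3 (t / a) (by positivity) (by rw [e1]; exact h2) (by
      rw [zero_add]
      exact (hsm t h1 h2).le)
    rw [zero_add, e1] at h3
    have h4 := (Complex.abs_re_le_norm _).trans h3
    rw [Complex.sub_re, Complex.mul_re, Complex.exp_ofReal_mul_I_re, Complex.exp_ofReal_mul_I_im] at h4
    have e2 : Real.cos t * J.re - Real.sin t * J.im = J.re * Real.cos t - J.im * Real.sin t := by ring
    rw [e2] at h4
    linarith
  obtain ⟨t1, ht0, ht1, hw⟩ := phase J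
  obtain ⟨w, hwd⟩ : ∃ w : ℝ, w = J.re * Real.cos t1 - J.im * Real.sin t1 := ⟨_, rfl⟩
  have g1 := abs_le.1 (hg t1 ht0 (by linarith))
  have g2 := hg (t1 + Real.pi) (by linarith) (by linarith)
  rw [Real.cos_add_pi, Real.sin_add_pi] at g2
  have e3 : J.re * -Real.cos t1 - J.im * -Real.sin t1 = -w := by rw [hwd]; ring
  rw [e3] at g2
  replace g2 := abs_le.1 g2
  rw [← hwd] at g1 hw
  have hcont : ContinuousOn (fun t : ℝ => (JJ a F (t / a)).re) (Icc t1 (t1 + Real.pi)) := by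
    intro t ht
    have h1 := re_deriv hUD ha1 (hsm t (by linarith [ht.1]) (by linarith [ht.2])) hN
    have h2 : ContinuousAt (fun t : ℝ => t / a) t := by fun_prop
    exact (ContinuousAt.comp (g := fun y : ℝ => (JJ a F y).re) (f := fun t : ℝ => t / a)
      h1.continuousAt h2).continuousWithinAt
  obtain ⟨t, ht, ht2⟩ : ∃ t ∈ Icc t1 (t1 + Real.pi), (JJ a F (t / a)).re = 0 := by
    rcases le_or_gt 0 w with h1 | h1
    · rw [abs_of_nonneg h1] at hw
      exact intermediate_value_Icc' (by linarith) hcont ⟨by linarith [g2.2], by linarith [g1.1]⟩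
    · rw [abs_of_neg h1] at hw
      exact intermediate_value_Icc (by linarith) hcont ⟨by linarith [g1.2], by linarith [g2.1]⟩
  have hta := hsm t (by linarith [ht.1]) (by linarith [ht.2])
  refine ⟨t / a, div_nonneg (by linarith [ht.1]) ha.le, ?_, ?_⟩
  · have e1 : a * (t / a) = t := by field_simp
    rw [e1]
    linarith [ht.2]
  · rw [uu_axis hUD ha1 hta.le hN, ht2]
    simp

end Pool.Agent.Hp428.TE
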